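import Pool.Agent.helper14.SCO.Spec

/-!
# Row sco:MAI (MP_bfc607_gt): the main lemma
-/

set_option autoImplicit false

namespace Pool.Agent.SCO

open Pool.Agent.Scheepers Cardinal

theorem MAI_pig {α : Type} (S : Set α) (hS : S.Finite) (f : ℕ → α) (Q : Set ℕ) (hQ : Q.Infinite)
    (hf : ∀ i ∈ Q, f i ∈ S) : ∃ a : α, {i | f i = a}.Infinite := by
  by_contra h
  push Not at h
  apply hQ
  refine (Set.Finite.biUnion hS (fun a _ => h a)).subset ?_
  intro i hi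
  exact Set.mem_biUnion (hf i hi) rfl

theorem MAI_sub (Q : Set ℕ) (hQ : Q.Infinite) : ∃ φ : ℕ → ℕ, StrictMono φ ∧ ∀ i, φ i ∈ Q :=
  ⟨Nat.nth (· ∈ Q), Nat.nth_strictMono hQ, Nat.nth_mem_of_infinite hQ⟩

theorem MAI_ext {P : ℕ → Prop} (h : ∀ N, ∃ k > N, P k) : ∃ φ : ℕ → ℕ, StrictMono φ ∧ ∀ n, P (φ n) := by
  have h1 : {k | P k}.Infinite := by
    intro h2
    obtain ⟨B, hB⟩ := h2.bddAbove
    obtain ⟨k, hk, hk2⟩ := h B
    have h3 := hB hk2
    omega
  exact MAI_sub _ h1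

theorem MAI_reg {l r : ℕ} (h : l ≤ r) : Reg l ⊆ Reg r := by
  rintro w ⟨e, he, hw⟩
  exact ⟨e, by omega, hw⟩

theorem MAI (h1 : RFI_stmt) (h2 : KFD_stmt) (h3 : PHO_stmt) (h4 : CSA_stmt) (h5 : SEQ_stmt) : MAI_stmt := by
  intro p J W b V hyp
  by_contra hcon
  push Not at hcon
  obtain ⟨K, hK⟩ := h2 p J W b V hyp
  have h6 : ∀ N, ∃ k > N, K ≤ k ∧ ∃ l0, ∀ l, l0 ≤ l → J < l → ¬ Lg (p.blk (W k) J l) (p.a J) (p.a l) := by
    intro N
    obtain ⟨k, hk, l0, hl0⟩ := hcon (max (N + 1) K)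
    exact ⟨k, by have := le_max_left (N + 1) K; omega, (le_max_right _ _).trans hk, l0, hl0⟩
  obtain ⟨k, hkm, hk⟩ := MAI_ext h6
  have h7 : ∀ i, ∃ l0, ∀ l, l0 ≤ l → J < l → ¬ Lg (p.blk (W (k i)) J l) (p.a J) (p.a l) := fun i => (hk i).2
  choose L hL using h7
  let l : ℕ → ℕ := fun i => J + 1 + ∑ j ∈ Finset.range (i + 1), (L j + b (k j) + 1)
  have hlm : StrictMono l := by
    apply strictMono_nat_of_lt_succ
    intro i
    have h8 : l (i + 1) = l i + (L (i + 1) + b (k (i + 1)) + 1) := by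
      simp only [l]
      rw [Finset.sum_range_succ _ (i + 1)]
      ring
    rw [h8]
    omega
  have hl1 : ∀ i, L i + b (k i) + 1 ≤ l i := by
    intro i
    have h8 : L i + b (k i) + 1 ≤ ∑ j ∈ Finset.range (i + 1), (L j + b (k j) + 1) :=
      Finset.single_le_sum (f := fun j => L j + b (k j) + 1) (fun _ _ => Nat.zero_le _) (Finset.self_mem_range_succ i)
    simp only [l]
    omega
  have hl2 : ∀ i, J < l i := by
    intro i
    simp only [l]
    omega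
  have hbad : ∀ i, ∃ (t : Finset (ℕ × ℕ)) (w : ℕ × ℕ), (t : Set (ℕ × ℕ)) ⊆ Reg (p.a J) ∧ Bad p W J t w (k i) (l i) := by
    intro i
    have h8 := hL i (l i) (by have := hl1 i; omega) (hl2 i)
    unfold Lg at h8
    push Not at h8
    obtain ⟨t, ht, h9⟩ := h8
    have h10 : dlt t ∈ p.blk (W (k i)) J (l i) := by
      refine ⟨fun j hj _ => (hyp.lg j hj t (ht.trans (MAI_reg (p.mono.monotone hj)))).1, ?_⟩
      intro v hv hvW
      refine hK (k i) (hk i).1 t ht v ?_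
      refine hyp.sup (k i) v (cat (p.a J) v (dlt t)) ?_ hvW
      intro e he
      unfold cat
      split_ifs with h11
      · rfl
      · refine hv e (not_lt.mp h11) ?_
        have h12 := hl1 i
        have h13 : l i ≤ p.a (l i) := p.mono.id_le (l i)
        omega
    obtain ⟨w, hw1, hw2, hw3⟩ := h9 h10
    exact ⟨t, w, ht, hw1, hw2, hw3⟩
  choose t w ht hw using hbad
  -- constant `t`
  have hfin : {s : Finset (ℕ × ℕ) | (s : Set (ℕ × ℕ)) ⊆ Reg (p.a J)}.Finite := by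
    refine (Finset.finite_toSet ((h1 (p.a J)).toFinset.powerset)).subset ?_
    intro s hs
    rw [Finset.mem_coe, Finset.mem_powerset]
    intro x hx
    rw [Set.Finite.mem_toFinset]
    exact hs hx
  obtain ⟨t0, ht0⟩ := MAI_pig _ hfin t Set.univ Set.infinite_univ (fun i _ => ht i)
  obtain ⟨φ, hφ, hφt⟩ := MAI_sub _ ht0
  have ht00 : (t0 : Set (ℕ × ℕ)) ⊆ Reg (p.a J) := by
    have h8 := hφt 0
    have h9 := ht (φ 0)
    rw [show t (φ 0) = t0 from h8] at h9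
    exact h9
  have hbad2 : ∀ i, Bad p W J t0 (w (φ i)) (k (φ i)) (l (φ i)) := by
    intro i
    have h8 := hw (φ i)
    rw [show t (φ i) = t0 from hφt i] at h8
    exact h8
  have hbk : ∀ i, b (k i) ≤ l i := fun i => by have := hl1 i; omega
  by_cases hM : ∃ M, {i | w (φ i) ∈ Reg M}.Infinite
  · obtain ⟨M, hM⟩ := hM
    obtain ⟨w0, hw0⟩ := MAI_pig _ (h1 M) (fun i => w (φ i)) _ hM (fun i hi => hi)
    obtain ⟨ψ, hψ, hψw⟩ := MAI_sub _ hw0
    refine h4 p J W b V hyp t0 ht00 (fun i => k (φ (ψ i))) (fun i => l (φ (ψ i))) (fun x y h => hkm (hφ (hψ h)))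
      (fun x y h => hlm (hφ (hψ h))) (fun i => hbk _) (fun i => hl2 _) w0 ?_
    intro i
    have h8 := hbad2 (ψ i)
    rw [show w (φ (ψ i)) = w0 from hψw i] at h8
    exact h8
  · push Not at hM
    obtain ⟨z, hz1, hz2, hz3⟩ := h5 p J hyp.lg V hyp.nb t0 ht00 (fun i => l (φ i)) (fun i => w (φ i))
      (fun x y h => hlm (hφ h)) (fun i => ⟨(hbad2 i).1, (hbad2 i).2.1⟩) (by
        intro M
        have h8 := (hM M).bddAbove
        obtain ⟨B, hB⟩ := h8
        refine ⟨B + 1, fun i hi h9 => ?_⟩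
        have h10 := hB h9
        omega)
    obtain ⟨s, hs1, hs2⟩ := h3 p J W b hyp.sup t0 (fun i => w (φ i)) (fun i => k (φ i)) (fun i => l (φ i))
      (fun x y h => hkm (hφ h)) (fun x y h => hlm (hφ h)) (fun i => hbk _) hbad2 z hz1 hz2
    obtain ⟨k0, hk0⟩ := hyp.cv _ hs1 (hz3 s)
    obtain ⟨k', hk', h8⟩ := hs2 k0
    exact hk0 k' hk' h8

end Pool.Agent.SCO
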